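import Mathlib

set_option autoImplicit false

/-!
A Jordan ring `A` with eight elements and a group `G` of three automorphisms of `A` such that `A` has no
`|G|`-torsion, the fixed subring has zero multiplication, and `A` is not solvable.

`A` is the three-dimensional simple algebra over the field with two elements with basis `e0, e1, e2` and products
`e0 e1 = e2`, `e1 e2 = e0`, `e2 e0 = e1`, `x x = 0`; the group is generated by `e0 ↦ e1 ↦ e2 ↦ e0`.
-/

namespace Pool.Agent.Results.MP_8ae111_al.JordanFixedRing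

/-- The ring is Jordan: commutative, and `(x² y) x = x² (y x)`. -/
def IsJordan (R : Type) [NonUnitalNonAssocRing R] : Prop :=
  (∀ x y : R, x * y = y * x) ∧ ∀ x y : R, ((x * x) * y) * x = (x * x) * (y * x)

/-- The linearised Jordan identity. -/
def LinearizedJordan (R : Type) [NonUnitalNonAssocRing R] : Prop :=
  ∀ x y z t : R, ((x * z) * y) * t + ((z * t) * y) * x + ((t * x) * y) * z =
    (x * z) * (y * t) + (z * t) * (y * x) + (t * x) * (y * z)

/-- The derived series: `derived R 0 = R`, and `derived R (k + 1)` is the additive subgroup generated by the products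
of two elements of `derived R k`. -/
def derived (R : Type) [NonUnitalNonAssocRing R] : ℕ → AddSubgroup R
  | 0 => ⊤
  | k + 1 => AddSubgroup.closure {z | ∃ a ∈ derived R k, ∃ b ∈ derived R k, z = a * b}

/-- The ring is solvable: some term of the derived series is zero. -/
def IsSolvableRing (R : Type) [NonUnitalNonAssocRing R] : Prop := ∃ n : ℕ, derived R n = ⊥

/-- The subring of the elements fixed by all automorphisms in `G`. -/
def fixedSubring {R : Type} [NonUnitalNonAssocRing R] (G : Subgroup (RingAut R)) : NonUnitalSubring R where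
  carrier := {a | ∀ g ∈ G, g a = a}
  mul_mem' {a b} ha hb := fun g hg => by rw [map_mul, ha g hg, hb g hg]
  add_mem' {a b} ha hb := fun g hg => by rw [map_add, ha g hg, hb g hg]
  zero_mem' := fun g _ => map_zero g
  neg_mem' {a} ha := fun g hg => by rw [map_neg, ha g hg]

/-- The eight-element ring. -/
@[ext] structure A : Type where
  a0 : ZMod 2
  a1 : ZMod 2
  a2 : ZMod 2
deriving DecidableEq

namespace A

instance : Zero A := ⟨⟨0, 0, 0⟩⟩
instance : Add A := ⟨fun u v => ⟨u.a0 + v.a0, u.a1 + v.a1, u.a2 + v.a2⟩⟩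
instance : Neg A := ⟨fun u => ⟨-u.a0, -u.a1, -u.a2⟩⟩
instance : Mul A := ⟨fun u v =>
  ⟨u.a1 * v.a2 - u.a2 * v.a1, u.a2 * v.a0 - u.a0 * v.a2, u.a0 * v.a1 - u.a1 * v.a0⟩⟩

theorem zero_def : (0 : A) = ⟨0, 0, 0⟩ := rfl
theorem add_def (u v : A) : u + v = ⟨u.a0 + v.a0, u.a1 + v.a1, u.a2 + v.a2⟩ := rfl
theorem neg_def (u : A) : -u = ⟨-u.a0, -u.a1, -u.a2⟩ := rfl
theorem mul_def (u v : A) : u * v =
  ⟨u.a1 * v.a2 - u.a2 * v.a1, u.a2 * v.a0 - u.a0 * v.a2, u.a0 * v.a1 - u.a1 * v.a0⟩ := rfl

instance : NonUnitalNonAssocRing A where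
  add_assoc u v w := by simp [add_def, add_assoc]
  zero_add u := by simp [add_def, zero_def]
  add_zero u := by simp [add_def, zero_def]
  add_comm u v := by simp [add_def, add_comm]
  neg_add_cancel u := by ext <;> exact neg_add_cancel _
  nsmul := nsmulRec
  zsmul := zsmulRec
  left_distrib u v w := by ext <;> simp only [add_def, mul_def] <;> ring
  right_distrib u v w := by ext <;> simp only [add_def, mul_def] <;> ring
  zero_mul u := by ext <;> simp [mul_def, zero_def]
  mul_zero u := by ext <;> simp [mul_def, zero_def]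

theorem two (x : ZMod 2) : x + x = 0 := by revert x; decide

theorem add_self (u : A) : u + u = 0 := by
  ext <;> exact two _

theorem mul_self (u : A) : u * u = 0 := by
  ext <;> simp only [mul_def, zero_def] <;> ring

theorem mul_comm' (u v : A) : u * v = v * u := by
  have h := mul_self (u + v)
  rw [mul_add, add_mul, add_mul, mul_self, mul_self, zero_add, add_zero] at h
  have h2 := add_self (v * u)
  have : u * v = v * u + (v * u + u * v) := by
    rw [← add_assoc, h2, zero_add]
  rw [this, h, add_zero]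

theorem isJordan : IsJordan A := by
  refine ⟨mul_comm', fun x y => ?_⟩
  rw [mul_self, zero_mul, zero_mul, zero_mul]

theorem linearized : LinearizedJordan A := by
  intro x y z t
  ext <;> simp only [mul_def, add_def]
  all_goals
    rw [← sub_eq_zero]
    ring_nf

/-- The cyclic permutation of the coordinates. -/
def rot : RingAut A where
  toFun u := ⟨u.a2, u.a0, u.a1⟩
  invFun u := ⟨u.a1, u.a2, u.a0⟩
  left_inv _ := rfl
  right_inv _ := rfl
  map_mul' _ _ := rfl
  map_add' _ _ := rfl

theorem rot_apply (u : A) : rot u = ⟨u.a2, u.a0, u.a1⟩ := rfl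

theorem rot_pow_three : rot ^ 3 = 1 := by
  ext u <;> rfl

theorem rot_ne_one : rot ≠ 1 := by
  intro h
  have h1 : rot ⟨1, 0, 0⟩ = (⟨1, 0, 0⟩ : A) := by rw [h]; rfl
  rw [rot_apply] at h1
  exact absurd h1 (by decide)

theorem orderOf_rot : orderOf rot = 3 := by
  have : Fact (Nat.Prime 3) := ⟨Nat.prime_three⟩
  exact orderOf_eq_prime rot_pow_three rot_ne_one

/-- The group of order three generated by the cyclic permutation. -/
def G : Subgroup (RingAut A) := Subgroup.zpowers rot

theorem card_G : Nat.card G = 3 := by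
  rw [G, Nat.card_zpowers, orderOf_rot]

theorem no_torsion (a : A) (h : Nat.card G • a = 0) : a = 0 := by
  rw [card_G, succ_nsmul, two_nsmul, add_self, zero_add] at h
  exact h

theorem fixed (a : A) (ha : a ∈ fixedSubring G) : a.a0 = a.a2 ∧ a.a1 = a.a0 := by
  have h : rot a = a := ha rot (Subgroup.mem_zpowers rot)
  rw [rot_apply] at h
  exact ⟨(congrArg A.a0 h).symm, (congrArg A.a1 h).symm⟩

theorem solvable_fixed : IsSolvableRing (fixedSubring G) := by
  refine ⟨1, ?_⟩
  rw [eq_bot_iff]
  change AddSubgroup.closure _ ≤ _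
  rw [AddSubgroup.closure_le]
  rintro z ⟨⟨a, ha⟩, -, ⟨b, hb⟩, -, rfl⟩
  obtain ⟨h1, h2⟩ := fixed a ha
  obtain ⟨g1, g2⟩ := fixed b hb
  change _ ∈ (⊥ : AddSubgroup _)
  rw [AddSubgroup.mem_bot]
  apply Subtype.ext
  change a * b = 0
  ext <;> simp only [mul_def, zero_def, h2, ← h1, g2, ← g1] <;> ring

theorem derived_top (n : ℕ) : derived A n = ⊤ := by
  induction n with
  | zero => rfl
  | succ n ih =>
    have hm : ∀ a b : A, a * b ∈ derived A (n + 1) := by
      intro a b
      apply AddSubgroup.subset_closure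
      exact ⟨a, by rw [ih]; trivial, b, by rw [ih]; trivial, rfl⟩
    have key : ∀ u : A, u = (⟨0, u.a0, 0⟩ : A) * ⟨0, 0, 1⟩ + (⟨0, 0, u.a1⟩ : A) * ⟨1, 0, 0⟩ +
        (⟨u.a2, 0, 0⟩ : A) * ⟨0, 1, 0⟩ := by
      intro u
      ext <;> simp [mul_def, add_def]
    rw [eq_top_iff]
    intro u _
    rw [key u]
    exact AddSubgroup.add_mem _ (AddSubgroup.add_mem _ (hm _ _) (hm _ _)) (hm _ _)

theorem not_solvable : ¬ IsSolvableRing A := by
  rintro ⟨n, hn⟩
  rw [derived_top] at hn
  have h1 : (⟨1, 0, 0⟩ : A) ∈ (⊥ : AddSubgroup A) := by rw [← hn]; trivial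
  rw [AddSubgroup.mem_bot] at h1
  exact absurd h1 (by decide)

end A

/-- There are a Jordan ring `A` (in which the linearised Jordan identity holds as well) and a finite group `G` of
automorphisms of `A` such that `A` has no `|G|`-torsion and the fixed subring is solvable, but `A` is not solvable. -/
theorem result : ∃ (A : Type) (_ : NonUnitalNonAssocRing A) (G : Subgroup (RingAut A)),
    IsJordan A ∧ LinearizedJordan A ∧ Finite G ∧ (∀ a : A, Nat.card G • a = 0 → a = 0) ∧
    IsSolvableRing (fixedSubring G) ∧ ¬ IsSolvableRing A :=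
  ⟨A, inferInstance, A.G, A.isJordan, A.linearized,
    Nat.finite_of_card_ne_zero (by rw [A.card_G]; norm_num), A.no_torsion, A.solvable_fixed, A.not_solvable⟩

end Pool.Agent.Results.MP_8ae111_al.JordanFixedRing
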